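import Pool.Agent.U642.CB.Main
import Pool.Agent.U642.LP.Box

set_option autoImplicit false

/-! # The criterion in progressions at the integer points of convex bodies -/

namespace Pool.Agent.U642.CB

open Finset Filter
open scoped Pointwise
open Pool.Agent.W147.PS (ff ev_pow)
open Pool.Agent.N542.PT (Crit)
open Pool.Agent.U642.LP (GoodAP crit_ap)

open scoped Classical in
/-- **the criterion in progressions at the integer points of convex bodies** -/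
theorem convex_ap {ι : Type} (n : ℕ) (hn : 1 ≤ n) (F : ι → MvPolynomial (Fin n) ℤ)
    (hF : Crit n F) (hlin : ∀ j, ∀ (u : ℤ) (x : Fin n → ℤ),
      MvPolynomial.eval (fun k => u * x k) (F j) = u * MvPolynomial.eval x (F j)) (δ : ℝ) (hδ : 0 < δ) (hδ1 : δ ≤ 1) :
    ∃ κ : ℝ, 0 < κ ∧ ∀ᶠ X : ℝ in atTop, ∀ m₀ : ℕ, m₀.Prime → (m₀ : ℝ) = X →
    ∀ (K : Set (Fin n → ℝ)) (c : Fin n → ℝ), Convex ℝ K →
    (∀ x ∈ K, -x ∈ K) → ∀ (v : Fin n → Fin n → ℤ), (∀ i, X ^ δ • rv (v i) ∈ K) →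
    LinearIndependent ℝ (fun i => rv (v i)) →
    ∀ S : ℝ → Finset (Fin n → ℤ),
    (∀ t : ℝ, 0 ≤ t → t ≤ 2 → ∀ x, x ∈ S t ↔ rv x - c ∈ t • K) →
    X ^ (-δ) * (S 1).card ≤ (((S 1).filter (fun x => GoodAP F m₀ (κ * ff X) (X ^ δ) x)).card : ℝ) := by
  obtain ⟨δ₂, hδ₂⟩ : ∃ δ₂ : ℝ, δ₂ = δ / 4 := ⟨_, rfl⟩
  have hδ₂0 : 0 < δ₂ := by rw [hδ₂]; positivity
  obtain ⟨κ, hκ, hcrit⟩ := crit_ap n F hF hlin δ₂ hδ₂0 (by linarith)
  refine ⟨κ, hκ, ?_⟩
  obtain ⟨θ, hθ⟩ : ∃ θ : ℝ, θ = δ₂ / (4 * n + 4) := ⟨_, rfl⟩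
  have hn0 : (0 : ℝ) ≤ n := Nat.cast_nonneg _
  have hθ0 : 0 < θ := by rw [hθ]; positivity
  have hθe : θ * (4 * n + 4) = δ₂ := by rw [hθ]; field_simp
  have hθ1 : θ ≤ δ₂ / 4 := by nlinarith
  rw [← hθ] at hcrit
  filter_upwards [hcrit, ev_pow (θ - δ) (-(3 * δ₂)) n (by linarith),
    ev_pow (-δ) 0 (8 * n) (by linarith), ev_pow (-δ₂) 0 8 (by linarith),
    ev_pow (-(2 * δ₂)) (-δ₂) (2 * 2 ^ n) (by linarith), ev_pow (-δ) (-δ₂) (2 ^ n) (by linarith),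
    eventually_gt_atTop (1 : ℝ)]
    with X g1 g2 g3 g4 g5 g6 g7
  intro m₀ hm₀ hmX K c hK hs v hv hli S hS
  have hX0 : 0 < X := by linarith
  have hmono : ∀ x y : ℝ, x ≤ y → X ^ x ≤ X ^ y := fun x y h =>
    Real.rpow_le_rpow_of_exponent_le g7.le h
  obtain ⟨lam, hlam⟩ : ∃ lam : ℝ, lam = X ^ (-δ) := ⟨_, rfl⟩
  have hlam0 : 0 < lam := by rw [hlam]; exact Real.rpow_pos_of_pos hX0 _
  have hlamX : lam * X ^ δ = 1 := by
    rw [hlam, ← Real.rpow_add hX0]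
    simp
  have hv' : ∀ i, rv (v i) ∈ lam • K := by
    intro i
    have h1 := Set.smul_mem_smul_set (a := lam) (hv i)
    rwa [smul_smul, hlamX, one_smul] at h1
  have h0 : (0 : Fin n → ℝ) ∈ K := by
    have h1 := hv ⟨0, hn⟩
    have h2 := hs _ h1
    have h3 := hK h1 h2 (show (0 : ℝ) ≤ 1 / 2 by norm_num) (show (0 : ℝ) ≤ 1 / 2 by norm_num)
      (by norm_num)
    rwa [smul_neg, add_neg_cancel] at h3
  -- the parameters
  obtain ⟨N, hN⟩ : ∃ N : ℕ, N = ⌊X ^ (2 * δ₂)⌋₊ := ⟨_, rfl⟩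
  have hX2 : 1 ≤ X ^ (2 * δ₂) := Real.one_le_rpow g7.le (by positivity)
  have hN1 : (N : ℝ) ≤ X ^ (2 * δ₂) := by
    rw [hN]
    exact Nat.floor_le (by linarith)
  have hN2 : X ^ (2 * δ₂) ≤ 2 * N := by
    have h1 := Nat.lt_floor_add_one (X ^ (2 * δ₂))
    rw [← hN] at h1
    have h2 : (1 : ℝ) ≤ N := by
      rw [hN]
      exact_mod_cast Nat.le_floor (by simpa using hX2)
    linarith
  have hN3 : 1 ≤ N := by
    rw [hN]
    exact Nat.le_floor (by simpa using hX2)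
  have hN3R : (1 : ℝ) ≤ N := by exact_mod_cast hN3
  obtain ⟨t, ht1, ht2, hdist⟩ := dilate hK h0 hs hS hlam0.le hv' hli (X ^ θ)
    (Real.one_le_rpow g7.le hθ0.le) (X ^ (-(3 * δ₂))) (by
      rw [hlam, ← Real.rpow_add hX0, ← sub_eq_add_neg]
      exact g2) N hN3 (by
      have h1 : (N : ℝ) * X ^ (-(3 * δ₂)) ≤ X ^ (-δ₂) := by
        calc (N : ℝ) * X ^ (-(3 * δ₂)) ≤ X ^ (2 * δ₂) * X ^ (-(3 * δ₂)) := by gcongr
          _ = X ^ (-δ₂) := by rw [← Real.rpow_add hX0]; congr 1; ring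
      rw [Real.rpow_zero] at g4
      linarith) (by
      rw [Real.rpow_zero] at g3
      rw [hlam]
      linarith)
  -- the criterion
  have hmain := g1 m₀ hm₀ hmX (S t) (by
    intro q hq hqX ρ
    have h1 := hdist q hq hqX ρ
    refine le_trans ?_ (h1.trans ?_)
    · exact le_rfl
    · apply mul_le_mul_of_nonneg_left _ (Nat.cast_nonneg _)
      rw [div_le_iff₀ (by linarith)]
      calc (2 : ℝ) ^ n = 2 ^ n * (X ^ (-(2 * δ₂)) * X ^ (2 * δ₂)) := by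
            rw [← Real.rpow_add hX0, neg_add_cancel, Real.rpow_zero, mul_one]
        _ ≤ 2 ^ n * (X ^ (-(2 * δ₂)) * (2 * N)) := by gcongr
        _ = (2 * 2 ^ n * X ^ (-(2 * δ₂))) * N := by ring
        _ ≤ X ^ (-δ₂) * N := by gcongr)
  have hsub : S t ⊆ S 1 := S_mono hK h0 hS (by linarith) ht2 (by norm_num)
  have hle : (((S t).filter (fun i => GoodAP F m₀ (κ * ff X) (X ^ δ₂) i)).card : ℝ) ≤
      (((S 1).filter (fun x => GoodAP F m₀ (κ * ff X) (X ^ δ) x)).card : ℝ) := by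
    rw [Nat.cast_le]
    apply card_le_card
    intro x hx
    rw [mem_filter] at hx ⊢
    refine ⟨hsub hx.1, fun j m hm => ?_⟩
    obtain ⟨l, hl, hl2, hl3⟩ := hx.2 j m hm
    exact ⟨l, hl, hl2.trans (hmono _ _ (by linarith)), hl3⟩
  refine le_trans ?_ (hmain.trans hle)
  have hd := double hK h0 hs hS hlam0.le hv' hli (by
      rw [Real.rpow_zero] at g3
      rw [hlam]
      linarith)
  have hd2 : ((S 1).card : ℝ) ≤ 2 ^ n * (S (3 / 4)).card := by exact_mod_cast hd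
  have hd3 : ((S (3 / 4)).card : ℝ) ≤ (S t).card := by
    exact_mod_cast card_le_card (S_mono hK h0 hS (by norm_num) ht1 (by linarith))
  calc X ^ (-δ) * (S 1).card ≤ X ^ (-δ) * (2 ^ n * (S t).card) := by
        apply mul_le_mul_of_nonneg_left _ (by positivity)
        refine hd2.trans ?_
        gcongr
    _ = (2 ^ n * X ^ (-δ)) * (S t).card := by ring
    _ ≤ X ^ (-δ₂) * (S t).card := by gcongr

end Pool.Agent.U642.CB
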