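import Pool.Agent.U642.WP.Cnt

set_option autoImplicit false

/-! # The integer points of convex bodies in residue classes -/

namespace Pool.Agent.U642.CB

open Finset Filter
open scoped Pointwise
open Pool.Agent.W147.PS (ff ev_pow)
open Pool.Agent.N542.PT (Crit WellDist Good)
open Pool.Agent.U642.WP (crit_cnt)

/-- the real vector of an integer vector -/
def rv {n : ℕ} (x : Fin n → ℤ) : Fin n → ℝ := fun j => (x j : ℝ)

lemma rv_add {n : ℕ} (x y : Fin n → ℤ) : rv (x + y) = rv x + rv y := by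
  funext j; simp [rv]

lemma rv_sub {n : ℕ} (x y : Fin n → ℤ) : rv (x - y) = rv x - rv y := by
  funext j; simp [rv]

lemma rv_smul {n : ℕ} (a : ℤ) (x : Fin n → ℤ) : rv (a • x) = (a : ℝ) • rv x := by
  funext j; simp [rv]

lemma rv_sum {n : ℕ} {ι : Type} (s : Finset ι) (x : ι → Fin n → ℤ) :
    rv (∑ i ∈ s, x i) = ∑ i ∈ s, rv (x i) := by
  funext j; simp [rv, Finset.sum_apply]

section

variable {n : ℕ} {K : Set (Fin n → ℝ)}

lemma mono_smul (hK : Convex ℝ K) (h0 : (0 : Fin n → ℝ) ∈ K) {a b : ℝ} (ha : 0 ≤ a) (hab : a ≤ b)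
    {x : Fin n → ℝ} (hx : x ∈ a • K) : x ∈ b • K := by
  obtain ⟨k, hk, rfl⟩ := Set.mem_smul_set.1 hx
  rcases (ha.trans hab).eq_or_lt with hb | hb
  · have : a = 0 := le_antisymm (by rw [hb]; exact hab) ha
    rw [this, ← hb]
    exact Set.smul_mem_smul_set hk
  · refine Set.mem_smul_set.2 ⟨(a / b) • k, ?_, ?_⟩
    · have h1 := hK h0 hk (show 0 ≤ 1 - a / b by
        rw [sub_nonneg]; exact (div_le_one hb).2 hab) (show 0 ≤ a / b by positivity) (by ring)
      rwa [smul_zero, zero_add] at h1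
    · rw [smul_smul, mul_div_cancel₀ a hb.ne']

lemma add_mem (hK : Convex ℝ K) {a b : ℝ} (ha : 0 ≤ a) (hb : 0 ≤ b) {x y : Fin n → ℝ}
    (hx : x ∈ a • K) (hy : y ∈ b • K) : x + y ∈ (a + b) • K := by
  rw [hK.add_smul ha hb]
  exact Set.add_mem_add hx hy

lemma neg_mem' (hs : ∀ x ∈ K, -x ∈ K) {a : ℝ} {x : Fin n → ℝ} (hx : x ∈ a • K) : -x ∈ a • K := by
  obtain ⟨k, hk, rfl⟩ := Set.mem_smul_set.1 hx
  exact Set.mem_smul_set.2 ⟨-k, hs k hk, smul_neg _ _⟩

lemma sum_mem' (hK : Convex ℝ K) (h0 : (0 : Fin n → ℝ) ∈ K) {ι : Type} (s : Finset ι) (a : ι → ℝ)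
    (y : ι → Fin n → ℝ) (A lam : ℝ) (hA : 0 ≤ A) (hlam : 0 ≤ lam) (ha : ∀ i ∈ s, 0 ≤ a i ∧ a i ≤ A)
    (hy : ∀ i ∈ s, y i ∈ lam • K) : ∑ i ∈ s, a i • y i ∈ ((s.card : ℝ) * (A * lam)) • K := by
  classical
  induction s using Finset.induction_on with
  | empty =>
    rw [sum_empty, card_empty, Nat.cast_zero, zero_mul]
    exact Set.mem_smul_set.2 ⟨0, h0, smul_zero _⟩
  | insert i s hi ih =>
    rw [sum_insert hi, card_insert_of_notMem hi, Nat.cast_add, Nat.cast_one, add_mul, one_mul,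
      add_comm ((s.card : ℝ) * (A * lam))]
    apply add_mem hK (by positivity) (by positivity) _
      (ih (fun j hj => ha j (mem_insert_of_mem hj)) (fun j hj => hy j (mem_insert_of_mem hj)))
    obtain ⟨h1, h2⟩ := ha i (mem_insert_self _ _)
    apply mono_smul hK h0 (a := a i * lam) (by positivity)
      (mul_le_mul_of_nonneg_right h2 hlam)
    rw [← smul_smul]
    exact Set.smul_mem_smul_set (hy i (mem_insert_self _ _))

/-- rounding to the lattice spanned by `q v_i` -/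
lemma round (hK : Convex ℝ K) (h0 : (0 : Fin n → ℝ) ∈ K) (v : Fin n → Fin n → ℤ) (lam : ℝ)
    (hlam : 0 ≤ lam) (hv : ∀ i, rv (v i) ∈ lam • K)
    (hli : LinearIndependent ℝ (fun i => rv (v i))) (y : Fin n → ℝ) (q : ℕ) (hq : 1 ≤ q) :
    ∃ u : Fin n → ℤ, y - (q : ℝ) • rv u ∈ ((n : ℝ) * (q * lam)) • K := by
  have hq0 : (0 : ℝ) < q := by exact_mod_cast hq
  obtain ⟨b, hb⟩ : ∃ b : Module.Basis (Fin n) ℝ (Fin n → ℝ), ∀ i, b i = rv (v i) := by
    refine ⟨basisOfLinearIndependentOfCardEqFinrank' (fun i => rv (v i)) hli (by simp), fun i => ?_⟩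
    simp
  obtain ⟨s, hs⟩ : ∃ s : Fin n → ℝ, ∑ i, s i • rv (v i) = y := by
    refine ⟨fun i => b.repr y i, ?_⟩
    rw [← b.sum_repr y]
    refine sum_congr rfl fun i _ => ?_
    rw [b.sum_repr y, hb]
  refine ⟨∑ i, ⌊s i / q⌋ • v i, ?_⟩
  have h1 : y - (q : ℝ) • rv (∑ i, ⌊s i / q⌋ • v i) =
      ∑ i, (s i - q * (⌊s i / q⌋ : ℝ)) • rv (v i) := by
    rw [rv_sum, ← hs, smul_sum, ← sum_sub_distrib]
    refine sum_congr rfl fun i _ => ?_
    rw [rv_smul, smul_smul, sub_smul]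
  rw [h1]
  have h2 := sum_mem' hK h0 (univ : Finset (Fin n)) (fun i => s i - q * (⌊s i / q⌋ : ℝ))
    (fun i => rv (v i)) q lam hq0.le hlam (fun i _ => by
      have h3 := Int.floor_le (s i / q)
      have h4 := Int.lt_floor_add_one (s i / q)
      rw [le_div_iff₀ hq0] at h3
      rw [div_lt_iff₀ hq0] at h4
      constructor
      · linarith
      · linarith) (fun i _ => hv i)
  rwa [card_univ, Fintype.card_fin] at h2

end

open scoped Classical in
/-- the number of the members of `S` in the class `ρ` modulo `q` -/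
noncomputable def cls {n : ℕ} (S : Finset (Fin n → ℤ)) (q : ℕ) (ρ : Fin n → ℤ) : ℕ :=
  (S.filter (fun x => ∀ j, (q : ℤ) ∣ x j - ρ j)).card

lemma cls_sum {n : ℕ} (S : Finset (Fin n → ℤ)) (q : ℕ) (hq : 1 ≤ q) (A : ℕ) :
    ((∀ ρ, cls S q ρ ≤ A) → S.card ≤ q ^ n * A) ∧ ((∀ ρ, A ≤ cls S q ρ) → q ^ n * A ≤ S.card) := by
  classical
  haveI : NeZero q := ⟨by omega⟩
  have h1 := card_eq_sum_card_fiberwise (s := S) (t := (univ : Finset (Fin n → ZMod q)))
    (f := fun x j => ((x j : ℤ) : ZMod q)) (fun _ _ => mem_coe.2 (mem_univ _))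
  have h2 : ∀ a : Fin n → ZMod q, (S.filter (fun x => (fun j => ((x j : ℤ) : ZMod q)) = a)).card =
      cls S q (fun j => ((a j).val : ℤ)) := by
    intro a
    unfold cls
    congr 1
    apply filter_congr
    intro x _
    rw [funext_iff]
    refine forall_congr' fun j => ?_
    rw [← ZMod.intCast_zmod_eq_zero_iff_dvd]
    push_cast
    rw [ZMod.natCast_zmod_val, sub_eq_zero]
  have h3 : (univ : Finset (Fin n → ZMod q)).card = q ^ n := by
    rw [card_univ, Fintype.card_fun, ZMod.card, Fintype.card_fin]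
  constructor
  · intro h
    rw [h1, ← h3, ← smul_eq_mul, ← sum_const]
    exact sum_le_sum fun a _ => by rw [h2]; exact h _
  · intro h
    rw [h1, ← h3, ← smul_eq_mul, ← sum_const]
    exact sum_le_sum fun a _ => by rw [h2]; exact h _

section

variable {n : ℕ} {K : Set (Fin n → ℝ)} {c : Fin n → ℝ} {S : ℝ → Finset (Fin n → ℤ)}
  {v : Fin n → Fin n → ℤ} {lam : ℝ}

/-- comparison of two classes -/
lemma cls_le (hK : Convex ℝ K) (h0 : (0 : Fin n → ℝ) ∈ K)
    (hS : ∀ t : ℝ, 0 ≤ t → t ≤ 2 → ∀ x, x ∈ S t ↔ rv x - c ∈ t • K) (hlam : 0 ≤ lam)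
    (hv : ∀ i, rv (v i) ∈ lam • K) (hli : LinearIndependent ℝ (fun i => rv (v i)))
    (q : ℕ) (hq : 1 ≤ q) (ρ ρ' : Fin n → ℤ) (t : ℝ) (ht : 0 ≤ t) (ht2 : t + n * (q * lam) ≤ 2) :
    cls (S t) q ρ ≤ cls (S (t + n * (q * lam))) q ρ' := by
  classical
  obtain ⟨u, hu⟩ := round hK h0 v lam hlam hv hli (rv (ρ' - ρ)) q hq
  have he : (0 : ℝ) ≤ n * (q * lam) := by positivity
  unfold cls
  refine card_le_card_of_injOn (fun x => x + ((ρ' - ρ) - (q : ℤ) • u)) ?_ ?_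
  · intro x hx
    rw [mem_coe, mem_filter] at hx ⊢
    obtain ⟨h1, h2⟩ := hx
    rw [hS t ht (by linarith)] at h1
    constructor
    · rw [hS _ (by linarith) ht2]
      have h3 := add_mem hK ht he h1 hu
      have e : rv (x + ((ρ' - ρ) - (q : ℤ) • u)) - c =
          rv x - c + (rv (ρ' - ρ) - (q : ℝ) • rv u) := by
        rw [rv_add, rv_sub, rv_smul]
        push_cast
        abel
      rw [e]
      exact h3
    · intro j
      have h3 := h2 j
      have e : (x + ((ρ' - ρ) - (q : ℤ) • u)) j - ρ' j = (x j - ρ j) - q * u j := by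
        simp only [Pi.add_apply, Pi.sub_apply, Pi.smul_apply, smul_eq_mul]
        ring
      rw [e]
      exact dvd_sub h3 (dvd_mul_right _ _)
  · intro x _ y _ h
    exact add_right_cancel h

/-- doubling -/
lemma double (hK : Convex ℝ K) (h0 : (0 : Fin n → ℝ) ∈ K) (hs : ∀ x ∈ K, -x ∈ K)
    (hS : ∀ t : ℝ, 0 ≤ t → t ≤ 2 → ∀ x, x ∈ S t ↔ rv x - c ∈ t • K) (hlam : 0 ≤ lam)
    (hv : ∀ i, rv (v i) ∈ lam • K) (hli : LinearIndependent ℝ (fun i => rv (v i)))
    (hl : 8 * (n * lam) ≤ 1) : (S 1).card ≤ 2 ^ n * (S (3 / 4)).card := by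
  classical
  have hnl : 0 ≤ n * lam := by positivity
  obtain ⟨c₀, hc₀⟩ := round hK h0 v lam hlam hv hli c 1 le_rfl
  rw [Nat.cast_one, one_smul, one_mul] at hc₀
  have hc₁ : rv c₀ - c ∈ ((n : ℝ) * lam) • K := by
    have := neg_mem' hs hc₀
    rwa [neg_sub] at this
  obtain ⟨t, ht⟩ : ∃ t : ℝ, t = 1 + n * ((2 : ℕ) * lam) := ⟨_, rfl⟩
  have ht1 : t = 1 + 2 * (n * lam) := by rw [ht]; push_cast; ring
  -- the class of `c₀` modulo two
  have h1 : cls (S t) 2 c₀ ≤ (S (3 / 4)).card := by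
    unfold cls
    refine card_le_card_of_injOn (fun x => fun j => (x j + c₀ j) / 2) ?_ ?_
    · intro x hx
      rw [mem_coe, mem_filter] at hx
      obtain ⟨h1, h2⟩ := hx
      rw [hS t (by linarith) (by linarith)] at h1
      rw [mem_coe, hS _ (by norm_num) (by norm_num)]
      have h3 : rv (fun j => (x j + c₀ j) / 2) = (1 / 2 : ℝ) • (rv x + rv c₀) := by
        funext j
        simp only [rv, Pi.smul_apply, Pi.add_apply, smul_eq_mul]
        obtain ⟨m, hm⟩ := h2 j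
        have e : x j + c₀ j = 2 * (m + c₀ j) := by
          push_cast at hm
          linarith
        have e2 : (x j + c₀ j) / 2 = m + c₀ j := by
          rw [e]
          exact Int.mul_ediv_cancel_left _ (by norm_num)
        rw [e2]
        have e3 : ((x j : ℝ) + c₀ j) = 2 * ((m : ℝ) + c₀ j) := by exact_mod_cast e
        rw [e3]
        push_cast
        ring
      rw [h3]
      have h4 := add_mem hK (by linarith) (by positivity) h1 hc₁
      have h5 : (1 / 2 : ℝ) • (rv x + rv c₀) - c = (1 / 2 : ℝ) • (rv x - c + (rv c₀ - c)) := by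
        funext j
        simp only [Pi.smul_apply, Pi.add_apply, Pi.sub_apply, smul_eq_mul]
        ring
      rw [h5]
      apply mono_smul hK h0 (a := (1 / 2) * (t + n * lam)) (by linarith) (by linarith)
      rw [← smul_smul]
      exact Set.smul_mem_smul_set h4
    · intro x hx y hy h
      rw [mem_coe, mem_filter] at hx hy
      funext j
      have h1 := congrFun h j
      simp only at h1
      have h2 := hx.2 j
      have h3 := hy.2 j
      push_cast at h2 h3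
      omega
  have h2 := (cls_sum (S 1) 2 (by norm_num) (S (3 / 4)).card).1 (fun ρ => by
    refine (cls_le hK h0 hS hlam hv hli 2 (by norm_num) ρ c₀ 1 zero_le_one ?_).trans ?_
    · push_cast; linarith
    · rw [← ht]; exact h1)
  exact h2

/-- monotonicity -/
lemma S_mono (hK : Convex ℝ K) (h0 : (0 : Fin n → ℝ) ∈ K)
    (hS : ∀ t : ℝ, 0 ≤ t → t ≤ 2 → ∀ x, x ∈ S t ↔ rv x - c ∈ t • K) {a b : ℝ} (ha : 0 ≤ a)
    (hab : a ≤ b) (hb : b ≤ 2) : S a ⊆ S b := by
  intro x hx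
  rw [hS a ha (hab.trans hb)] at hx
  rw [hS b (ha.trans hab) hb]
  exact mono_smul hK h0 ha hab hx

/-- **a well distributed dilate** -/
lemma dilate (hK : Convex ℝ K) (h0 : (0 : Fin n → ℝ) ∈ K) (hs : ∀ x ∈ K, -x ∈ K)
    (hS : ∀ t : ℝ, 0 ≤ t → t ≤ 2 → ∀ x, x ∈ S t ↔ rv x - c ∈ t • K) (hlam : 0 ≤ lam)
    (hv : ∀ i, rv (v i) ∈ lam • K) (hli : LinearIndependent ℝ (fun i => rv (v i)))
    (Q : ℝ) (hQ : 1 ≤ Q) (ε : ℝ) (hε : n * (Q * lam) ≤ ε) (N : ℕ) (hN : 1 ≤ N)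
    (hNε : 8 * (N * ε) ≤ 1) (hl : 8 * (n * lam) ≤ 1) :
    ∃ t : ℝ, 3 / 4 ≤ t ∧ t ≤ 1 ∧ ∀ q : ℕ, 1 ≤ q → (q : ℝ) ≤ Q → ∀ ρ : Fin n → ℤ,
      |(cls (S t) q ρ : ℝ) - (S t).card / (q : ℝ) ^ n| ≤ (S t).card * (2 ^ n / N) := by
  have hNR : (1 : ℝ) ≤ N := by exact_mod_cast hN
  have hε0 : 0 ≤ ε := le_trans (by positivity) hε
  have hdouble := double hK h0 hs hS hlam hv hli hl
  obtain ⟨τ, hτ⟩ : ∃ τ : ℕ → ℝ, τ = fun i : ℕ => 3 / 4 + 2 * ε * (i : ℝ) := ⟨_, rfl⟩
  have hτ0 : τ 0 = 3 / 4 := by rw [hτ]; simp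
  have hτ1 : ∀ i, τ (i + 1) = τ i + 2 * ε := by intro i; rw [hτ]; push_cast; ring
  have hτm : ∀ i, 3 / 4 ≤ τ i := by
    intro i
    rw [hτ]
    have : 0 ≤ 2 * ε * (i : ℝ) := by positivity
    linarith
  have hτN : ∀ i ≤ N, τ i ≤ 1 := by
    intro i hi
    rw [hτ]
    have h1 : (i : ℝ) ≤ N := by exact_mod_cast hi
    have h2 : 2 * ε * (i : ℝ) ≤ 2 * ε * N := by gcongr
    show 3 / 4 + 2 * ε * (i : ℝ) ≤ 1
    nlinarith
  -- pigeonhole
  obtain ⟨i, hi, hstep⟩ : ∃ i < N, ((S (τ (i + 1))).card : ℝ) - (S (τ i)).card ≤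
      2 ^ n / N * (S (3 / 4)).card := by
    by_contra hcon
    push Not at hcon
    have h1 : ∑ i ∈ range N, (2 ^ n / N * ((S (3 / 4)).card : ℝ)) <
        ∑ i ∈ range N, (((S (τ (i + 1))).card : ℝ) - (S (τ i)).card) :=
      sum_lt_sum_of_nonempty (by rw [nonempty_range_iff]; omega)
        (fun i hi => hcon i (mem_range.1 hi))
    rw [sum_const, card_range, sum_range_sub (fun i => ((S (τ i)).card : ℝ)), nsmul_eq_mul] at h1
    have h2 : (N : ℝ) * (2 ^ n / N * ((S (3 / 4)).card : ℝ)) = 2 ^ n * (S (3 / 4)).card := by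
      field_simp
    rw [h2, hτ0] at h1
    have h3 : ((S (τ N)).card : ℝ) ≤ (S 1).card := by
      exact_mod_cast card_le_card (S_mono hK h0 hS (by linarith [hτm N]) (hτN N le_rfl)
        (by norm_num))
    have h4 : ((S 1).card : ℝ) ≤ 2 ^ n * (S (3 / 4)).card := by exact_mod_cast hdouble
    have h5 : (0 : ℝ) ≤ (S (3 / 4)).card := Nat.cast_nonneg _
    linarith
  refine ⟨τ i + ε, by linarith [hτm i], ?_, ?_⟩
  · have := hτN (i + 1) (by omega)
    rw [hτ1] at this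
    linarith
  intro q hq hqQ ρ
  have hqR : (1 : ℝ) ≤ q := by exact_mod_cast hq
  obtain ⟨e, he⟩ : ∃ e : ℝ, e = n * (q * lam) := ⟨_, rfl⟩
  have hee : e ≤ ε := by
    rw [he]
    refine le_trans ?_ hε
    gcongr
  have he0 : 0 ≤ e := by rw [he]; positivity
  have h34 := hτm i
  have hτi1 := hτN (i + 1) (by omega)
  have hle1 : ∀ a b : ℝ, 3 / 4 ≤ a → a ≤ b → b ≤ 2 → ((S a).card : ℝ) ≤ (S b).card := by
    intro a b h1 h2 h3
    exact_mod_cast card_le_card (S_mono hK h0 hS (by linarith) h2 h3)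
  -- upper bound
  have hup : (q : ℝ) ^ n * (cls (S (τ i + ε)) q ρ : ℝ) ≤ (S (τ (i + 1))).card := by
    have h1 := (cls_sum (S (τ i + ε + e)) q hq (cls (S (τ i + ε)) q ρ)).2 (fun ρ' => by
      have := cls_le hK h0 hS hlam hv hli q hq ρ ρ' (τ i + ε) (by linarith)
        (by rw [← he]; linarith [hτ1 i])
      rwa [← he] at this)
    have h2 : ((q ^ n * cls (S (τ i + ε)) q ρ : ℕ) : ℝ) ≤ (S (τ i + ε + e)).card := by
      exact_mod_cast h1
    push_cast at h2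
    refine h2.trans (hle1 _ _ (by linarith) (by rw [hτ1]; linarith) (by linarith))
  -- lower bound
  have hlow : ((S (τ i)).card : ℝ) ≤ (q : ℝ) ^ n * (cls (S (τ i + ε)) q ρ : ℝ) := by
    have h1 := (cls_sum (S (τ i + ε - e)) q hq (cls (S (τ i + ε)) q ρ)).1 (fun ρ' => by
      have := cls_le hK h0 hS hlam hv hli q hq ρ' ρ (τ i + ε - e) (by linarith)
        (by rw [← he]; linarith [hτ1 i])
      rw [← he, sub_add_cancel] at this
      exact this)
    have h2 : ((S (τ i + ε - e)).card : ℝ) ≤ ((q ^ n * cls (S (τ i + ε)) q ρ : ℕ) : ℝ) := by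
      exact_mod_cast h1
    push_cast at h2
    refine le_trans (hle1 _ _ h34 (by linarith) (by linarith [hτ1 i])) h2
  have hm1 : ((S (τ i)).card : ℝ) ≤ (S (τ i + ε)).card :=
    hle1 _ _ h34 (by linarith) (by linarith [hτ1 i])
  have hm2 : ((S (τ i + ε)).card : ℝ) ≤ (S (τ (i + 1))).card :=
    hle1 _ _ (by linarith) (by rw [hτ1]; linarith) (by linarith)
  have hm0 : ((S (3 / 4)).card : ℝ) ≤ (S (τ i + ε)).card :=
    hle1 _ _ le_rfl (by linarith) (by linarith [hτ1 i])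
  have hqn : (1 : ℝ) ≤ (q : ℝ) ^ n := one_le_pow₀ hqR
  have hqn0 : (0 : ℝ) < (q : ℝ) ^ n := by linarith
  have hstep2 : ((S (τ (i + 1))).card : ℝ) - (S (τ i)).card ≤
      (S (τ i + ε)).card * (2 ^ n / N) := by
    refine hstep.trans ?_
    rw [mul_comm]
    exact mul_le_mul_of_nonneg_right hm0 (by positivity)
  have e1 : (cls (S (τ i + ε)) q ρ : ℝ) - (S (τ i + ε)).card / (q : ℝ) ^ n =
      ((q : ℝ) ^ n * (cls (S (τ i + ε)) q ρ : ℝ) - (S (τ i + ε)).card) / (q : ℝ) ^ n := by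
    field_simp
  rw [e1, abs_div, abs_of_pos hqn0]
  refine (div_le_self (abs_nonneg _) hqn).trans ?_
  rw [abs_le]
  constructor
  · linarith
  · linarith

end

end Pool.Agent.U642.CB
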